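import Pool.Agent.H683.BW.Stm
import Pool.Agent.H683.FF.TreeRooted

/-!
# S_LEV: ordering a directed tree by levels
-/

set_option autoImplicit false

namespace Pool.Agent.H77.BWLEV

open Pool.Agent.NPC Pool.Agent.H633R2 Pool.Agent.H683.BW

/-- A directed tree has a potential. -/
theorem exists_pot_fin (M : List (List Bool)) (hT : IsDirTree M) :
    ∃ h : Fin M.length → ℤ, ∀ u v, Arc M u v → h v = h u + 1 := by
  classical
  obtain ⟨hA, hG⟩ := hT
  obtain ⟨s⟩ := hG.connected.nonempty
  obtain ⟨par, lev, hR⟩ := Pool.Agent.H683.FF.exists_rooted hG s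
  let sg : Fin M.length → ℤ := fun w => if Arc M (par w) w then 1 else -1
  let h : Fin M.length → ℤ := fun v => ∑ i ∈ Finset.range (lev v), sg (par^[i] v)
  have hstep : ∀ v, v ≠ s → h v = h (par v) + sg v := by
    intro v hv
    show ∑ i ∈ Finset.range (lev v), sg (par^[i] v) = _
    rw [hR.lev_par v hv, Finset.sum_range_succ']
    rfl
  refine ⟨h, fun u v huv => ?_⟩
  have hne : u ≠ v := by
    rintro rfl
    exact hA _ _ huv huv
  have hadj : (graphOf M).Adj u v := ⟨hne, Or.inl huv⟩
  rcases (hR.adj u v).1 hadj with ⟨hv, rfl⟩ | ⟨hu, rfl⟩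
  · rw [hstep v hv]
    have : sg v = 1 := if_pos huv
    rw [this]
  · rw [hstep u hu]
    have : sg u = -1 := if_neg (hA _ _ huv)
    rw [this]
    ring

theorem exists_pot (M : List (List Bool)) (hT : IsDirTree M) :
    ∃ H : ℕ → ℤ, ∀ u v, u < M.length → v < M.length → entry M u v = true → H v = H u + 1 := by
  obtain ⟨h, hh⟩ := exists_pot_fin M hT
  refine ⟨fun v => if hv : v < M.length then h ⟨v, hv⟩ else 0, fun u v hu hv huv => ?_⟩
  simp only [hu, hv, dif_pos]
  exact hh ⟨u, hu⟩ ⟨v, hv⟩ huv

/-- Each level meets each chain at most once. -/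
theorem level_card (n : ℕ) (A : ℕ → ℕ → Bool) (ch : List (List ℕ)) (hD : Dec n A ch) (H : ℕ → ℤ)
    (hH : ∀ u v, u < n → v < n → A u v = true → H v = H u + 1) (t : ℤ) :
    ((Finset.range n).filter fun w => H w = t).card ≤ ch.length := by
  classical
  have hex : ∀ w, w < n → ∃ l ∈ ch, w ∈ l := by
    intro w hw
    exact List.mem_flatten.1 ((hD.mem w).2 hw)
  choose! c hc1 hc2 using hex
  have hlin : ∀ l ∈ ch, ∀ (i : ℕ) (hi : i < l.length), H l[i] = H (l[0]'(by omega)) + i := by
    intro l hl i
    induction i with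
    | zero => intro hi; simp
    | succ i ih =>
      intro hi
      have h1 := ih (by omega)
      have m1 : l[i]'(by omega) < n := (hD.mem _).1 (List.mem_flatten.2 ⟨l, hl, List.getElem_mem _⟩)
      have m2 : l[i + 1] < n := (hD.mem _).1 (List.mem_flatten.2 ⟨l, hl, List.getElem_mem _⟩)
      rw [hH _ _ m1 m2 (hD.cons l hl i hi), h1]
      push_cast
      ring
  refine le_trans (Finset.card_le_card_of_injOn c (t := ch.toFinset) ?_ ?_) (List.toFinset_card_le ch)
  · intro w hw
    simp only [Finset.coe_filter, Finset.mem_range, Set.mem_ofPred_eq] at hw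
    simpa using hc1 w hw.1
  · intro w hw w' hw' he
    simp only [Finset.coe_filter, Finset.mem_range, Set.mem_ofPred_eq] at hw hw'
    have h1 := hc2 w hw.1
    have h2 := hc2 w' hw'.1
    rw [← he] at h2
    obtain ⟨i, hi, hiw⟩ := List.mem_iff_getElem.1 h1
    obtain ⟨j, hj, hjw⟩ := List.mem_iff_getElem.1 h2
    have e1 := hlin _ (hc1 _ hw.1) i hi
    have e2 := hlin _ (hc1 _ hw.1) j hj
    rw [hiw, hw.2] at e1
    rw [hjw, hw'.2] at e2
    have e3 : (i : ℤ) = j := by linarith
    have e4 : i = j := by exact_mod_cast e3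
    subst e4
    rw [← hiw, ← hjw]

theorem LEV : S_LEV := by
  classical
  intro M ch hT hD
  obtain ⟨H, hH⟩ := exists_pot M hT
  set n := M.length with hn
  -- the key
  let K : ℕ → ℤ := fun v => H v * n + v
  let l : List ℕ := (List.range n).mergeSort (fun a b => decide (K a ≤ K b))
  have hperm : l.Perm (List.range n) := List.mergeSort_perm _ _
  have hnd : l.Nodup := hperm.nodup_iff.2 List.nodup_range
  have hmem : ∀ v, v ∈ l ↔ v < n := fun v => (hperm.mem_iff).trans List.mem_range
  have hsort : l.Pairwise (fun a b => K a ≤ K b) := by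
    have := List.pairwise_mergeSort (le := fun a b => decide (K a ≤ K b))
      (fun a b c h1 h2 => by
        simp only [decide_eq_true_eq] at *
        exact h1.trans h2)
      (fun a b => by
        simp only [Bool.or_eq_true, decide_eq_true_eq]
        exact le_total _ _) (List.range n)
    exact this.imp (fun h => by simpa using h)
  have hidx : ∀ i j (hi : i < l.length) (hj : j < l.length), i ≤ j → K l[i] ≤ K l[j] := by
    intro i j hi hj hij
    rcases Nat.lt_or_eq_of_le hij with h | h
    · exact List.pairwise_iff_getElem.1 hsort i j hi hj h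
    · subst h; exact le_rfl
  refine ⟨l, hnd, hmem, fun u v hu hv huv => ?_⟩
  have hHv := hH u v hu hv huv
  have hul : l.idxOf u < l.length := List.idxOf_lt_length_of_mem ((hmem u).2 hu)
  have hvl : l.idxOf v < l.length := List.idxOf_lt_length_of_mem ((hmem v).2 hv)
  have gu : l[l.idxOf u] = u := List.getElem_idxOf hul
  have gv : l[l.idxOf v] = v := List.getElem_idxOf hvl
  have hKlt : K u < K v := by
    show H u * n + u < H v * n + v
    rw [hHv]
    have : (u : ℤ) < n := by exact_mod_cast hu
    nlinarith
  have hlt : l.idxOf u < l.idxOf v := by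
    by_contra hcon
    push Not at hcon
    have := hidx _ _ hvl hul hcon
    rw [gu, gv] at this
    omega
  refine ⟨hlt, ?_⟩
  have hsub : ∀ i ∈ Finset.Ico (l.idxOf u) (l.idxOf v), l.getD i 0 ∈
      ((Finset.range n).filter fun w => H w = H u) ∪
      ((Finset.range n).filter fun w => H w = H u + 1) := by
    intro i hi
    rw [Finset.mem_Ico] at hi
    have hil : i < l.length := hi.2.trans hvl
    have e : l.getD i 0 = l[i] := by simp [List.getD, hil]
    rw [e]
    have hin : l[i] < n := (hmem _).1 (List.getElem_mem _)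
    have a1 := hidx _ _ hul hil hi.1
    have a2 := hidx _ _ hil hvl hi.2.le
    rw [gu] at a1
    rw [gv] at a2
    change H u * n + u ≤ H l[i] * n + (l[i] : ℕ) at a1
    change H l[i] * n + (l[i] : ℕ) ≤ H v * n + v at a2
    rw [hHv] at a2
    have b1 : ((l[i] : ℕ) : ℤ) < n := by exact_mod_cast hin
    have b2 : (0 : ℤ) ≤ ((l[i] : ℕ) : ℤ) := Int.natCast_nonneg _
    have b3 : (v : ℤ) < n := by exact_mod_cast hv
    have b4 : (0 : ℤ) ≤ (u : ℤ) := Int.natCast_nonneg _
    have c1 : H u - 1 < H l[i] := by
      by_contra hc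
      push Not at hc
      nlinarith
    have c2 : H l[i] < H u + 2 := by
      by_contra hc
      push Not at hc
      nlinarith
    rw [Finset.mem_union, Finset.mem_filter, Finset.mem_filter, Finset.mem_range]
    rcases (by omega : H l[i] = H u ∨ H l[i] = H u + 1) with h | h
    · exact Or.inl ⟨hin, h⟩
    · exact Or.inr ⟨hin, h⟩
  have hcard : (Finset.Ico (l.idxOf u) (l.idxOf v)).card ≤
      (((Finset.range n).filter fun w => H w = H u) ∪
      ((Finset.range n).filter fun w => H w = H u + 1)).card := by
    refine Finset.card_le_card_of_injOn (fun i => l.getD i 0) hsub ?_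
    intro i hi j hj hij
    simp only [Finset.coe_Ico, Set.mem_Ico] at hi hj
    have hil : i < l.length := hi.2.trans hvl
    have hjl : j < l.length := hj.2.trans hvl
    have e : l.getD i 0 = l[i] := by simp [List.getD, hil]
    have e' : l.getD j 0 = l[j] := by simp [List.getD, hjl]
    simp only [e, e'] at hij
    exact (List.Nodup.getElem_inj_iff hnd).1 hij
  rw [Nat.card_Ico] at hcard
  have k1 := level_card n (entry M) ch hD H hH (H u)
  have k2 := level_card n (entry M) ch hD H hH (H u + 1)
  have k3 := Finset.card_union_le ((Finset.range n).filter fun w => H w = H u)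
    ((Finset.range n).filter fun w => H w = H u + 1)
  omega

end Pool.Agent.H77.BWLEV
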